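import Mathlib
import Pool.Agent.Lib.MP_fefc02_co.Count

set_option autoImplicit false

namespace Pool.Agent.Results.MP_fefc02_co.GirthEleven

/-- For every `t ≥ 28` there are graphs of maximum degree at most `d` with no cycle of length
at most `10` whose distance-`t` chromatic index is at least `c₀ d^t`. -/
theorem result : ∀ t : ℕ, 28 ≤ t →
    ∃ c₀ : ℝ, 0 < c₀ ∧ ∃ d₀ : ℕ, ∀ d : ℕ, d₀ ≤ d →
      ∃ (V : Type) (_ : Fintype V) (G : SimpleGraph V),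
        (∀ v, (G.neighborSet v).ncard ≤ d) ∧
        (∀ ℓ : ℕ, ℓ ≤ 10 → ¬ ∃ (v : V) (p : G.Walk v v), p.IsCycle ∧ p.length = ℓ) ∧
        ∀ k : ℕ, (∃ c : G.edgeSet → Fin k, ∀ e f : G.edgeSet, e ≠ f →
            G.lineGraph.edist e f ≤ (t : ℕ∞) → c e ≠ c f) →
          c₀ * (d : ℝ) ^ t ≤ (k : ℝ) := by
  intro t ht
  obtain ⟨c₀, hc, d₀, h⟩ := Pool.Agent.Lib.MP_fefc02_co.main t ht
  refine ⟨c₀, hc, d₀, fun d hd => ?_⟩
  obtain ⟨V, hV, G, h1, h2, h3⟩ := h d hd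
  refine ⟨V, hV, G, h1, ?_, h3⟩
  rintro ℓ hℓ ⟨v, p, hp, e⟩
  have := h2 v p hp
  omega

end Pool.Agent.Results.MP_fefc02_co.GirthEleven
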